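import Mathlib
import Pool.Agent.X246.LRS.Trace

set_option autoImplicit false
set_option linter.unusedSectionVars false

/-!
# The rank of `A - λ I` for graphs of girth greater than four
-/

namespace Pool.Agent.X73.RK

open Finset

variable {V : Type} [Fintype V] [DecidableEq V]

/-- the number of neighbours in `S` -/
def dS (G : SimpleGraph V) [DecidableRel G.Adj] (S : Finset V) (u : V) : ℕ :=
  (S.filter (G.Adj u)).card

/-- the adjacency indicator -/
def aa (G : SimpleGraph V) [DecidableRel G.Adj] (u v : V) : ℝ := if G.Adj u v then 1 else 0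

theorem aa_comm (G : SimpleGraph V) [DecidableRel G.Adj] (u v : V) : aa G u v = aa G v u := by
  unfold aa
  simp only [SimpleGraph.adj_comm]

theorem aa_self (G : SimpleGraph V) [DecidableRel G.Adj] (u : V) : aa G u u = 0 := by
  unfold aa
  rw [if_neg (G.loopless.irrefl u)]

theorem aa_sq (G : SimpleGraph V) [DecidableRel G.Adj] (u v : V) : aa G u v * aa G u v = aa G u v := by
  unfold aa
  split_ifs <;> norm_num

theorem sum_aa (G : SimpleGraph V) [DecidableRel G.Adj] (S : Finset V) (u : V) :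
    ∑ v ∈ S, aa G u v = dS G S u := by
  unfold aa dS
  rw [card_filter]
  push_cast
  rfl

/-- the matrix `A - λ I` restricted to `S` -/
def MM (G : SimpleGraph V) [DecidableRel G.Adj] (S : Finset V) (lam : ℝ) : Matrix V V ℝ :=
  Matrix.of fun u v => if u ∈ S ∧ v ∈ S then aa G u v - (if u = v then lam else 0) else 0

theorem MM_rank (G : SimpleGraph V) [DecidableRel G.Adj] (S : Finset V) (lam : ℝ) :
    (MM G S lam * (MM G S lam).transpose).rank ≤ (G.adjMatrix ℝ - lam • (1 : Matrix V V ℝ)).rank := by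
  have h1 : MM G S lam = Matrix.diagonal (fun u => if u ∈ S then (1 : ℝ) else 0) *
      ((G.adjMatrix ℝ - lam • (1 : Matrix V V ℝ)) *
        Matrix.diagonal (fun u => if u ∈ S then (1 : ℝ) else 0)) := by
    ext u v
    rw [Matrix.diagonal_mul, Matrix.mul_diagonal]
    simp only [MM, Matrix.of_apply, Matrix.sub_apply, Matrix.smul_apply, Matrix.one_apply,
      SimpleGraph.adjMatrix_apply, smul_eq_mul, aa]
    by_cases hu : u ∈ S <;> by_cases hv : v ∈ S <;> simp [hu, hv]
  refine (Matrix.rank_mul_le_left _ _).trans ?_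
  rw [h1]
  exact (Matrix.rank_mul_le_right _ _).trans (Matrix.rank_mul_le_left _ _)

/-- the entries of the Gram matrix -/
theorem gram_entry (G : SimpleGraph V) [DecidableRel G.Adj] (S : Finset V) (lam : ℝ) {u w : V}
    (hu : u ∈ S) (hw : w ∈ S) : (MM G S lam * (MM G S lam).transpose) u w =
      ∑ v ∈ S, aa G u v * aa G w v - 2 * lam * aa G u w + (if u = w then lam ^ 2 else 0) := by
  rw [Matrix.mul_apply]
  simp only [Matrix.transpose_apply, MM, Matrix.of_apply, hu, hw, true_and]
  have e1 : ∀ v : V, (if v ∈ S then aa G u v - (if u = v then lam else 0) else 0) *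
      (if v ∈ S then aa G w v - (if w = v then lam else 0) else 0) =
      (if v ∈ S then aa G u v * aa G w v else 0) - (if u = v then lam * aa G w u else 0) -
        (if w = v then lam * aa G u w else 0) + (if u = v then (if u = w then lam ^ 2 else 0) else 0)
      := by
    intro v
    by_cases huv : u = v
    · subst huv
      by_cases hwu : w = u
      · subst hwu
        simp only [hu, if_true]
        ring
      · have hwu' : ¬ u = w := fun h => hwu h.symm
        simp only [hu, if_true, hwu, hwu', if_false]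
        ring
    · by_cases hwv : w = v
      · subst hwv
        simp only [hw, if_true, huv, if_false]
        rw [aa_comm G u w]
        ring
      · simp only [huv, hwv, if_false]
        by_cases hv : v ∈ S
        · simp only [hv, if_true]; ring
        · simp only [hv, if_false]; ring
  rw [Finset.sum_congr rfl fun v _ => e1 v, Finset.sum_add_distrib, Finset.sum_sub_distrib,
    Finset.sum_sub_distrib, Finset.sum_ite_mem, Finset.univ_inter, Finset.sum_ite_eq,
    Finset.sum_ite_eq, Finset.sum_ite_eq]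
  simp only [Finset.mem_univ, if_true]
  rw [aa_comm G w u]
  ring

theorem gram_zero (G : SimpleGraph V) [DecidableRel G.Adj] (S : Finset V) (lam : ℝ) {u w : V}
    (h : u ∉ S ∨ w ∉ S) : (MM G S lam * (MM G S lam).transpose) u w = 0 := by
  rw [Matrix.mul_apply]
  apply Finset.sum_eq_zero
  intro v _
  simp only [Matrix.transpose_apply, MM, Matrix.of_apply]
  rcases h with h | h
  · simp [h]
  · simp [h]

/-- the rank inequality -/
theorem gram_main (G : SimpleGraph V) [DecidableRel G.Adj] (S : Finset V) (lam : ℝ)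
    (h4 : ∀ u w, u ≠ w → (univ.filter (fun v => G.Adj u v ∧ G.Adj w v)).card ≤ 1)
    (h3 : ∀ u v w, G.Adj u v → G.Adj v w → G.Adj u w → False) :
    ((∑ u ∈ S, (dS G S u : ℝ)) + S.card * lam ^ 2) ^ 2 ≤
      ((G.adjMatrix ℝ - lam • (1 : Matrix V V ℝ)).rank : ℝ) *
        (2 * (∑ u ∈ S, (dS G S u : ℝ) ^ 2) + 6 * lam ^ 2 * (∑ u ∈ S, (dS G S u : ℝ)) +
          S.card * lam ^ 4) := by
  set C := MM G S lam * (MM G S lam).transpose with hC
  have h1 := Pool.Agent.X246.LRS.trace_sq_le C
  have hrank : (C.rank : ℝ) ≤ ((G.adjMatrix ℝ - lam • (1 : Matrix V V ℝ)).rank : ℝ) := by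
    exact_mod_cast MM_rank G S lam
  -- the trace
  have htr : ∑ i, C i i = (∑ u ∈ S, (dS G S u : ℝ)) + S.card * lam ^ 2 := by
    have e1 : ∀ i, C i i = if i ∈ S then (dS G S i : ℝ) + lam ^ 2 else 0 := by
      intro i
      by_cases hi : i ∈ S
      · rw [if_pos hi, hC, gram_entry G S lam hi hi, aa_self]
        simp only [if_true, aa_sq, sum_aa]
        ring
      · rw [if_neg hi, hC, gram_zero G S lam (Or.inl hi)]
    rw [Finset.sum_congr rfl fun i _ => e1 i, Finset.sum_ite_mem, Finset.univ_inter,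
      Finset.sum_add_distrib, Finset.sum_const, nsmul_eq_mul]
  -- the squares of the entries
  have hsq : ∑ i, ∑ j, C i j ^ 2 ≤ 2 * (∑ u ∈ S, (dS G S u : ℝ) ^ 2) +
      6 * lam ^ 2 * (∑ u ∈ S, (dS G S u : ℝ)) + S.card * lam ^ 4 := by
    have e1 : ∑ i, ∑ j, C i j ^ 2 = ∑ u ∈ S, ∑ w ∈ S, C u w ^ 2 := by
      have a1 : ∀ i, ∑ j, C i j ^ 2 = if i ∈ S then ∑ w ∈ S, C i w ^ 2 else 0 := by
        intro i
        by_cases hi : i ∈ S
        · rw [if_pos hi]
          refine (Finset.sum_subset (Finset.subset_univ S) ?_).symm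
          intro j _ hj
          rw [hC, gram_zero G S lam (Or.inr hj)]
          norm_num
        · rw [if_neg hi]
          apply Finset.sum_eq_zero
          intro j _
          rw [hC, gram_zero G S lam (Or.inl hi)]
          norm_num
      rw [Finset.sum_congr rfl fun i _ => a1 i, Finset.sum_ite_mem, Finset.univ_inter]
    rw [e1]
    have e2 : ∀ u ∈ S, ∀ w ∈ S, C u w ^ 2 ≤
        ∑ v ∈ S, aa G u v * aa G w v + 4 * lam ^ 2 * aa G u w +
          (if u = w then (dS G S u : ℝ) ^ 2 + 2 * lam ^ 2 * dS G S u + lam ^ 4 - dS G S u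
            else 0) := by
      intro u hu w hw
      rw [hC, gram_entry G S lam hu hw]
      by_cases huw : u = w
      · subst huw
        simp only [if_true, aa_self, aa_sq, sum_aa]
        apply le_of_eq
        ring
      · rw [if_neg huw, if_neg huw]
        have hcard : ∑ v ∈ S, aa G u v * aa G w v =
            ((S.filter (fun v => G.Adj u v ∧ G.Adj w v)).card : ℝ) := by
          rw [card_filter]
          push_cast
          refine Finset.sum_congr rfl fun v _ => ?_
          unfold aa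
          by_cases h5 : G.Adj u v <;> by_cases h6 : G.Adj w v <;> simp [h5, h6]
        have hle : (S.filter (fun v => G.Adj u v ∧ G.Adj w v)).card ≤ 1 :=
          (card_le_card (Finset.filter_subset_filter _ (Finset.subset_univ S))).trans (h4 u w huw)
        rw [hcard]
        by_cases hadj : G.Adj u w
        · have h0 : (S.filter (fun v => G.Adj u v ∧ G.Adj w v)).card = 0 := by
            rw [card_eq_zero, filter_eq_empty_iff]
            rintro v - ⟨h5, h6⟩
            exact h3 u w v hadj h6 h5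
          rw [h0]
          unfold aa
          rw [if_pos hadj]
          apply le_of_eq
          push_cast
          ring
        · unfold aa
          rw [if_neg hadj]
          rcases Nat.le_one_iff_eq_zero_or_eq_one.1 hle with h5 | h5 <;> rw [h5] <;> norm_num
    have e3 : ∑ u ∈ S, ∑ w ∈ S, C u w ^ 2 ≤ ∑ u ∈ S, ∑ w ∈ S,
        (∑ v ∈ S, aa G u v * aa G w v + 4 * lam ^ 2 * aa G u w +
          (if u = w then (dS G S u : ℝ) ^ 2 + 2 * lam ^ 2 * dS G S u + lam ^ 4 - dS G S u
            else 0)) :=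
      Finset.sum_le_sum fun u hu => Finset.sum_le_sum fun w hw => e2 u hu w hw
    refine e3.trans ?_
    have e4 : ∀ u ∈ S, ∑ w ∈ S, (∑ v ∈ S, aa G u v * aa G w v + 4 * lam ^ 2 * aa G u w +
          (if u = w then (dS G S u : ℝ) ^ 2 + 2 * lam ^ 2 * dS G S u + lam ^ 4 - dS G S u
            else 0)) = ∑ w ∈ S, ∑ v ∈ S, aa G u v * aa G w v + 4 * lam ^ 2 * dS G S u +
          ((dS G S u : ℝ) ^ 2 + 2 * lam ^ 2 * dS G S u + lam ^ 4 - dS G S u) := by
      intro u hu
      rw [Finset.sum_add_distrib, Finset.sum_add_distrib, ← Finset.mul_sum, sum_aa,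
        Finset.sum_ite_eq, if_pos hu]
    rw [Finset.sum_congr rfl e4]
    have e5 : ∑ u ∈ S, ∑ w ∈ S, ∑ v ∈ S, aa G u v * aa G w v = ∑ v ∈ S, (dS G S v : ℝ) ^ 2 := by
      calc ∑ u ∈ S, ∑ w ∈ S, ∑ v ∈ S, aa G u v * aa G w v
          = ∑ u ∈ S, ∑ v ∈ S, ∑ w ∈ S, aa G u v * aa G w v := by
            refine Finset.sum_congr rfl fun u _ => Finset.sum_comm
        _ = ∑ v ∈ S, ∑ u ∈ S, ∑ w ∈ S, aa G u v * aa G w v := Finset.sum_comm
        _ = ∑ v ∈ S, (dS G S v : ℝ) ^ 2 := by
            refine Finset.sum_congr rfl fun v _ => ?_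
            have a1 : ∀ u ∈ S, ∑ w ∈ S, aa G u v * aa G w v = aa G v u * dS G S v := by
              intro u _
              rw [← Finset.mul_sum, aa_comm G u v]
              congr 1
              rw [← sum_aa]
              exact Finset.sum_congr rfl fun w _ => aa_comm G w v
            rw [Finset.sum_congr rfl a1, ← Finset.sum_mul, sum_aa, sq]
    simp only [Finset.sum_add_distrib, Finset.sum_sub_distrib, ← Finset.mul_sum]
    rw [e5, Finset.sum_const, nsmul_eq_mul]
    have hD1 : 0 ≤ ∑ u ∈ S, (dS G S u : ℝ) := Finset.sum_nonneg fun u _ => Nat.cast_nonneg _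
    linarith
  rw [htr] at h1
  refine h1.trans ?_
  have hnn : 0 ≤ ∑ i, ∑ j, C i j ^ 2 :=
    Finset.sum_nonneg fun i _ => Finset.sum_nonneg fun j _ => sq_nonneg _
  exact mul_le_mul hrank hsq hnn (Nat.cast_nonneg _)

/-- the rank and the degrees -/
theorem rank_degrees (G : SimpleGraph V) [DecidableRel G.Adj] (S : Finset V) (lam : ℝ)
    (h4 : ∀ u w, u ≠ w → (univ.filter (fun v => G.Adj u v ∧ G.Adj w v)).card ≤ 1)
    (h3 : ∀ u v w, G.Adj u v → G.Adj v w → G.Adj u w → False) :
    (∑ u ∈ S, (dS G S u : ℝ)) ^ 2 ≤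
      3 * ((G.adjMatrix ℝ - lam • (1 : Matrix V V ℝ)).rank : ℝ) * ∑ u ∈ S, (dS G S u : ℝ) ^ 2 := by
  have h := gram_main G S lam h4 h3
  set ρ : ℝ := ((G.adjMatrix ℝ - lam • (1 : Matrix V V ℝ)).rank : ℝ) with hρ
  set D1 : ℝ := ∑ u ∈ S, (dS G S u : ℝ) with hD1
  set D2 : ℝ := ∑ u ∈ S, (dS G S u : ℝ) ^ 2 with hD2
  set s : ℝ := (S.card : ℝ) with hs
  have hρ0 : 0 ≤ ρ := Nat.cast_nonneg _
  have hs0 : 0 ≤ s := Nat.cast_nonneg _
  have hD10 : 0 ≤ D1 := Finset.sum_nonneg fun u _ => Nat.cast_nonneg _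
  have hD20 : 0 ≤ D2 := Finset.sum_nonneg fun u _ => sq_nonneg _
  have hCS : D1 ^ 2 ≤ s * D2 := by
    have := Finset.sum_mul_sq_le_sq_mul_sq S (fun _ => (1 : ℝ)) (fun u => (dS G S u : ℝ))
    simpa [hD1, hD2, hs] using this
  by_contra hcon
  push Not at hcon
  have hD1pos : 0 < D1 := by
    rcases hD10.lt_or_eq with h5 | h5
    · exact h5
    · rw [← h5] at hcon
      have : 0 ≤ 3 * ρ * D2 := by positivity
      norm_num at hcon
      linarith
  have hD2pos : 0 < D2 := by
    rcases hD20.lt_or_eq with h5 | h5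
    · exact h5
    · rw [← h5, mul_zero] at hCS
      have : 0 < D1 ^ 2 := by positivity
      linarith
  have hρs : 3 * ρ < s := by
    have : 3 * ρ * D2 < s * D2 := hcon.trans_le hCS
    exact lt_of_mul_lt_mul_right this hD20
  have b1 : ρ * (2 * D2) < D1 ^ 2 := by nlinarith [mul_nonneg hρ0 hD20]
  have b2 : ρ * (6 * lam ^ 2 * D1) ≤ 2 * (s * lam ^ 2) * D1 := by
    have : 0 ≤ lam ^ 2 * D1 := by positivity
    nlinarith
  have b3 : ρ * (s * lam ^ 4) ≤ s * lam ^ 2 * (s * lam ^ 2) := by
    have h6 : 0 ≤ s * lam ^ 4 := by positivity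
    have h7 : ρ ≤ s := by linarith
    calc ρ * (s * lam ^ 4) ≤ s * (s * lam ^ 4) := mul_le_mul_of_nonneg_right h7 h6
      _ = _ := by ring
  nlinarith

end Pool.Agent.X73.RK
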