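import Mathlib
import Pool.Agent.X73.RK.Gram
import Pool.Agent.H968R3.Order

set_option autoImplicit false
set_option linter.unusedSectionVars false

/-!
# Graphs of girth greater than `2k`: the rank of `A - λ I`
-/

namespace Pool.Agent.X73.RK

open Finset

variable {V : Type} [Fintype V] [DecidableEq V]

theorem four_of_girth (G : SimpleGraph V) [DecidableRel G.Adj] {k : ℕ} (hk : 2 ≤ k)
    (hg : ((2 * k : ℕ) : ℕ∞) < G.egirth) (u w : V) (huw : u ≠ w) :
    (univ.filter (fun v => G.Adj u v ∧ G.Adj w v)).card ≤ 1 := by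
  rw [Finset.card_le_one]
  intro v hv v' hv'
  simp only [mem_filter, mem_univ, true_and] at hv hv'
  let p : G.Walk u w := SimpleGraph.Walk.cons hv.1 (SimpleGraph.Walk.cons hv.2.symm SimpleGraph.Walk.nil)
  let q : G.Walk u w := SimpleGraph.Walk.cons hv'.1 (SimpleGraph.Walk.cons hv'.2.symm SimpleGraph.Walk.nil)
  have hp : p.IsPath := by
    simp only [p, SimpleGraph.Walk.cons_isPath_iff, SimpleGraph.Walk.IsPath.nil,
      SimpleGraph.Walk.support_cons, SimpleGraph.Walk.support_nil, List.mem_cons,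
      List.not_mem_nil, or_false, true_and]
    refine ⟨hv.2.ne', ?_⟩
    rintro (h | h)
    · exact hv.1.ne h
    · exact huw h
  have hq : q.IsPath := by
    simp only [q, SimpleGraph.Walk.cons_isPath_iff, SimpleGraph.Walk.IsPath.nil,
      SimpleGraph.Walk.support_cons, SimpleGraph.Walk.support_nil, List.mem_cons,
      List.not_mem_nil, or_false, true_and]
    refine ⟨hv'.2.ne', ?_⟩
    rintro (h | h)
    · exact hv'.1.ne h
    · exact huw h
  have h := Pool.Agent.H968R3.path_uniq hg hp hq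
    (by simp only [p, q, SimpleGraph.Walk.length_cons, SimpleGraph.Walk.length_nil]; omega)
  have h7 := congrArg (fun w : G.Walk u w => w.getVert 1) h
  simpa [p, q] using h7

theorem three_of_girth (G : SimpleGraph V) [DecidableRel G.Adj] {k : ℕ} (hk : 2 ≤ k)
    (hg : ((2 * k : ℕ) : ℕ∞) < G.egirth) (u v w : V) (h1 : G.Adj u v) (h2 : G.Adj v w)
    (h3 : G.Adj u w) : False := by
  let p : G.Walk u w := SimpleGraph.Walk.cons h1 (SimpleGraph.Walk.cons h2 SimpleGraph.Walk.nil)
  let q : G.Walk u w := SimpleGraph.Walk.cons h3 SimpleGraph.Walk.nil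
  have hp : p.IsPath := by
    simp only [p, SimpleGraph.Walk.cons_isPath_iff, SimpleGraph.Walk.IsPath.nil,
      SimpleGraph.Walk.support_cons, SimpleGraph.Walk.support_nil, List.mem_cons,
      List.not_mem_nil, or_false, true_and]
    refine ⟨h2.ne, ?_⟩
    rintro (h | h)
    · exact h1.ne h
    · exact h3.ne h
  have hq : q.IsPath := by
    simp only [q, SimpleGraph.Walk.cons_isPath_iff, SimpleGraph.Walk.IsPath.nil,
      SimpleGraph.Walk.support_nil, List.mem_cons,
      List.not_mem_nil, or_false, true_and]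
    exact h3.ne
  have h := Pool.Agent.H968R3.path_uniq hg hp hq
    (by simp only [p, q, SimpleGraph.Walk.length_cons, SimpleGraph.Walk.length_nil]; omega)
  have h7 := congrArg (fun w : G.Walk u w => w.length) h
  simp [p, q] at h7

/-- the graph of the edges inside `S` -/
def HS (G : SimpleGraph V) (S : Finset V) : SimpleGraph V where
  Adj u v := G.Adj u v ∧ u ∈ S ∧ v ∈ S
  symm := ⟨fun _ _ h => ⟨h.1.symm, h.2.2, h.2.1⟩⟩
  loopless := ⟨fun _ h => G.loopless.irrefl _ h.1⟩

theorem HS_le (G : SimpleGraph V) (S : Finset V) : HS G S ≤ G := fun _ _ h => h.1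

theorem HS_girth (G : SimpleGraph V) (S : Finset V) {M : ℕ} (hg : (M : ℕ∞) < G.egirth) :
    (M : ℕ∞) < (HS G S).egirth :=
  hg.trans_le (SimpleGraph.egirth_anti (HS_le G S))

/-- the neighbours inside `S`, as a set -/
theorem HS_ncard (G : SimpleGraph V) [DecidableRel G.Adj] (S : Finset V) {u : V} (hu : u ∈ S) :
    {a | (HS G S).Adj u a}.ncard = dS G S u := by
  have h1 : {a | (HS G S).Adj u a} = ((S.filter (G.Adj u) : Finset V) : Set V) := by
    ext a
    simp only [HS, Set.mem_setOf_eq, coe_filter]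
    tauto
  rw [h1, Set.ncard_coe_finset]
  rfl

open Pool.Agent.H968R3 in
/-- the number of vertices reached by short paths -/
theorem grow2 (G : SimpleGraph V) [DecidableRel G.Adj] (S : Finset V) {M δ : ℕ}
    (hg : ((M : ℕ) : ℕ∞) < (HS G S).egirth) (hS : ∀ w ∈ S, δ + 1 ≤ dS G S w) :
    ∀ j, 2 * j ≤ M → ∀ y b, (HS G S).Adj b y → δ ^ j ≤ (X (HS G S) j y b).ncard := by
  intro j
  induction j with
  | zero =>
    intro _ y b hb
    rw [pow_zero]
    apply (Set.ncard_pos (Set.toFinite _)).2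
    exact ⟨y, SimpleGraph.Walk.nil, by simp, by simp, by simpa using hb.ne⟩
  | succ j ih =>
    intro hj y b hb
    have hy : y ∈ S := hb.2.2
    have h1 : δ ≤ ({a | (HS G S).Adj y a} \ {b}).ncard := by
      have h2 := hS y hy
      rw [← HS_ncard G S hy] at h2
      have h3 := Set.ncard_le_ncard_sdiff_add_ncard {a | (HS G S).Adj y a} {b}
      rw [Set.ncard_singleton] at h3
      omega
    have h2 := card_biUnion_ge (d := δ) (D := δ ^ j) ({a | (HS G S).Adj y a} \ {b})
      (fun a => X (HS G S) j a y)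
      (fun a ha a' ha' hne => X_disj hg ha.1 ha'.1 hne (by omega)) h1
      (fun a ha => ih (by omega) a y ha.1)
    rw [pow_succ, mul_comm]
    refine h2.trans (Set.ncard_le_ncard ?_ (Set.toFinite _))
    intro z hz
    simp only [Set.mem_iUnion] at hz
    obtain ⟨a, ha, hz⟩ := hz
    by_cases hj0 : j = 0
    · -- M ≥ 2 only; treat directly
      subst hj0
      obtain ⟨p, hp1, hp2, hp3⟩ := hz
      have hza : a = z := SimpleGraph.Walk.eq_of_length_eq_zero (p := p) (by omega)
      subst hza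
      refine ⟨SimpleGraph.Walk.cons ha.1 SimpleGraph.Walk.nil, ?_, ?_, ?_⟩
      · rw [SimpleGraph.Walk.cons_isPath_iff]
        exact ⟨SimpleGraph.Walk.IsPath.nil, by
          rw [SimpleGraph.Walk.support_nil, List.mem_singleton]; exact (show (HS G S).Adj y a from ha.1).ne⟩
      · simp
      · rw [SimpleGraph.Walk.support_cons, SimpleGraph.Walk.support_nil]
        simp only [List.mem_cons, List.not_mem_nil, or_false]
        rintro (h | h)
        · exact hb.ne h
        · exact ha.2 h.symm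
    · have : X (HS G S) j a y ⊆ X (HS G S) (j + 1) y b :=
        X_step hg ha.1 hb (fun e => ha.2 (by rw [e]; rfl)) (by omega)
      exact this hz

open Pool.Agent.H968R3 in
/-- one step, with the degree -/
theorem grow3 (G : SimpleGraph V) [DecidableRel G.Adj] (S : Finset V) {M δ : ℕ}
    (hg : ((M : ℕ) : ℕ∞) < (HS G S).egirth) (hS : ∀ w ∈ S, δ + 1 ≤ dS G S w) (j : ℕ)
    (hj : 2 * (j + 1) + 2 ≤ M) (y b : V) (hb : (HS G S).Adj b y) :
    (dS G S y - 1) * δ ^ j ≤ (X (HS G S) (j + 1) y b).ncard := by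
  have hy : y ∈ S := hb.2.2
  have h1 : dS G S y - 1 ≤ ({a | (HS G S).Adj y a} \ {b}).ncard := by
    have h3 := Set.ncard_le_ncard_sdiff_add_ncard {a | (HS G S).Adj y a} {b}
    rw [Set.ncard_singleton, HS_ncard G S hy] at h3
    omega
  have h2 := card_biUnion_ge (d := dS G S y - 1) (D := δ ^ j) ({a | (HS G S).Adj y a} \ {b})
    (fun a => X (HS G S) j a y)
    (fun a ha a' ha' hne => X_disj hg ha.1 ha'.1 hne (by omega)) h1
    (fun a ha => grow2 G S hg hS j (by omega) a y ha.1)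
  refine h2.trans (Set.ncard_le_ncard ?_ (Set.toFinite _))
  intro z hz
  simp only [Set.mem_iUnion] at hz
  obtain ⟨a, ha, hz⟩ := hz
  have : X (HS G S) j a y ⊆ X (HS G S) (j + 1) y b :=
    X_step hg ha.1 hb (fun e => ha.2 (by rw [e]; rfl)) (by omega)
  exact this hz

open Pool.Agent.H968R3 in
/-- the sum over the neighbours of a vertex -/
theorem sum_nbrs (G : SimpleGraph V) [DecidableRel G.Adj] (S : Finset V) {k δ : ℕ} (hk : 2 ≤ k)
    (hg : ((2 * k : ℕ) : ℕ∞) < (HS G S).egirth) (hS : ∀ w ∈ S, δ + 1 ≤ dS G S w) {a : V}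
    (ha : a ∈ S) :
    ∑ u ∈ S.filter (G.Adj a), (dS G S u - 1) * δ ^ (k - 2) ≤ Fintype.card V := by
  classical
  have h1 : ∀ u ∈ S.filter (G.Adj a), (dS G S u - 1) * δ ^ (k - 2) ≤
      ((X (HS G S) (k - 1) u a).toFinset).card := by
    intro u hu
    rw [mem_filter] at hu
    have h := grow3 G S hg hS (k - 2) (by omega) u a ⟨hu.2, ha, hu.1⟩
    rw [← Set.ncard_eq_toFinset_card']
    have e : k - 2 + 1 = k - 1 := by omega
    rwa [e] at h
  refine (Finset.sum_le_sum h1).trans ?_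
  rw [← Finset.card_biUnion]
  · exact Finset.card_le_univ _
  · intro u hu u' hu' hne
    rw [Finset.mem_coe, mem_filter] at hu hu'
    show Disjoint (X (HS G S) (k - 1) u a).toFinset (X (HS G S) (k - 1) u' a).toFinset
    rw [Set.disjoint_toFinset]
    exact X_disj hg (a := u) (a' := u') ⟨hu.2, ha, hu.1⟩ ⟨hu'.2, ha, hu'.1⟩ hne (by omega)

/-- the second moment of the degrees -/
theorem second_moment (G : SimpleGraph V) [DecidableRel G.Adj] (S : Finset V) {k δ : ℕ}
    (hk : 2 ≤ k) (hg : ((2 * k : ℕ) : ℕ∞) < G.egirth) (hS : ∀ w ∈ S, δ + 1 ≤ dS G S w) :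
    (∑ u ∈ S, dS G S u * (dS G S u - 1)) * δ ^ (k - 2) ≤ Fintype.card V * Fintype.card V := by
  have h1 : ∑ a ∈ S, ∑ u ∈ S.filter (G.Adj a), (dS G S u - 1) * δ ^ (k - 2) ≤
      ∑ _a ∈ S, Fintype.card V :=
    Finset.sum_le_sum fun a ha => sum_nbrs G S hk (HS_girth G S hg) hS ha
  rw [Finset.sum_const, smul_eq_mul] at h1
  have h2 : ∑ a ∈ S, ∑ u ∈ S.filter (G.Adj a), (dS G S u - 1) * δ ^ (k - 2) =
      (∑ u ∈ S, dS G S u * (dS G S u - 1)) * δ ^ (k - 2) := by
    rw [Finset.sum_mul]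
    have e1 : ∀ a ∈ S, ∑ u ∈ S.filter (G.Adj a), (dS G S u - 1) * δ ^ (k - 2) =
        ∑ u ∈ S, if G.Adj a u then (dS G S u - 1) * δ ^ (k - 2) else 0 :=
      fun a _ => Finset.sum_filter _ _
    rw [Finset.sum_congr rfl e1, Finset.sum_comm]
    apply Finset.sum_congr rfl
    intro u _
    rw [← Finset.sum_filter, Finset.sum_const, smul_eq_mul, mul_assoc]
    congr 1
    unfold dS
    congr 1
    apply Finset.filter_congr
    intro x _
    exact G.adj_comm x u
  rw [← h2]
  exact h1.trans (Nat.mul_le_mul_right _ (Finset.card_le_univ S))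

/-- the sum of the degrees inside `S` after the removal of a vertex -/
theorem sum_erase (G : SimpleGraph V) [DecidableRel G.Adj] (S : Finset V) {u : V} (hu : u ∈ S) :
    ∑ w ∈ S.erase u, (dS G (S.erase u) w : ℝ) = ∑ w ∈ S, (dS G S w : ℝ) - 2 * dS G S u := by
  have hu' : u ∉ S.erase u := Finset.notMem_erase u S
  have e1 : ∑ w ∈ S, (dS G S w : ℝ) = ∑ w ∈ S, ∑ v ∈ S, aa G w v :=
    Finset.sum_congr rfl fun w _ => (sum_aa G S w).symm
  have e2 : ∑ w ∈ S.erase u, (dS G (S.erase u) w : ℝ) =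
      ∑ w ∈ S.erase u, ∑ v ∈ S.erase u, aa G w v :=
    Finset.sum_congr rfl fun w _ => (sum_aa G (S.erase u) w).symm
  have e3 : (dS G S u : ℝ) = ∑ v ∈ S, aa G u v := (sum_aa G S u).symm
  have key : ∀ f : V → ℝ, ∑ v ∈ S, f v = f u + ∑ v ∈ S.erase u, f v := fun f =>
    (Finset.add_sum_erase S f hu).symm
  rw [e1, e2, e3, key (fun w => ∑ v ∈ S, aa G w v), key (fun v => aa G u v)]
  have e4 : ∑ w ∈ S.erase u, ∑ v ∈ S, aa G w v =
      ∑ w ∈ S.erase u, aa G w u + ∑ w ∈ S.erase u, ∑ v ∈ S.erase u, aa G w v := by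
    rw [← Finset.sum_add_distrib]
    exact Finset.sum_congr rfl fun w _ => key (fun v => aa G w v)
  rw [e4, aa_self]
  have e5 : ∑ w ∈ S.erase u, aa G w u = ∑ w ∈ S.erase u, aa G u w :=
    Finset.sum_congr rfl fun w _ => aa_comm G w u
  rw [e5]
  ring

/-- a dense part -/
theorem peel (G : SimpleGraph V) [DecidableRel G.Adj] (a : ℝ) :
    ∃ S : Finset V, (∀ u ∈ S, a ≤ dS G S u) ∧
      ∑ u, (dS G univ u : ℝ) - 2 * a * Fintype.card V ≤
        ∑ u ∈ S, (dS G S u : ℝ) - 2 * a * S.card := by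
  obtain ⟨S, -, hS⟩ := Finset.exists_max_image (univ : Finset (Finset V))
    (fun S => ∑ u ∈ S, (dS G S u : ℝ) - 2 * a * S.card) ⟨∅, mem_univ _⟩
  refine ⟨S, ?_, ?_⟩
  · intro u hu
    have h1 := hS (S.erase u) (mem_univ _)
    rw [sum_erase G S hu, Finset.card_erase_of_mem hu] at h1
    have h2 : 1 ≤ S.card := Finset.card_pos.mpr ⟨u, hu⟩
    rw [Nat.cast_sub h2] at h1
    push_cast at h1
    nlinarith
  · have h1 := hS univ (mem_univ _)
    simpa using h1

theorem dS_univ (G : SimpleGraph V) [DecidableRel G.Adj] (u : V) : dS G univ u = G.degree u := by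
  unfold dS
  rw [← SimpleGraph.card_neighborFinset_eq_degree]
  congr 1
  ext v
  simp

theorem rank_pos_of_entry (M : Matrix V V ℝ) {x y : V} (h : M x y ≠ 0) : 1 ≤ M.rank := by
  by_contra hcon
  have h3 : M.rank = 0 := by omega
  rw [Matrix.rank, Submodule.finrank_eq_zero, LinearMap.range_eq_bot] at h3
  have h4 : M.mulVecLin (Pi.single y 1) x = 0 := by rw [h3]; rfl
  rw [Matrix.mulVecLin_apply, Matrix.mulVec_single_one] at h4
  exact h h4

theorem rank_girth (G : SimpleGraph V) [DecidableRel G.Adj] {k : ℕ} (hk : 2 ≤ k)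
    (hg : ((2 * k : ℕ) : ℕ∞) < G.egirth) (lam : ℝ) :
    ((G.edgeFinset.card : ℝ) / (4 * Fintype.card V)) ^ k ≤
      ((G.adjMatrix ℝ - lam • (1 : Matrix V V ℝ)).rank : ℝ) := by
  set n : ℝ := (Fintype.card V : ℝ) with hn
  set e : ℝ := (G.edgeFinset.card : ℝ) with he
  set ρ : ℝ := ((G.adjMatrix ℝ - lam • (1 : Matrix V V ℝ)).rank : ℝ) with hρ
  have hρ0 : 0 ≤ ρ := Nat.cast_nonneg _
  have hn0 : 0 ≤ n := Nat.cast_nonneg _
  have he0 : 0 ≤ e := Nat.cast_nonneg _
  rcases he0.eq_or_lt with he1 | he1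
  · rw [← he1, zero_div, zero_pow (by omega)]
    exact hρ0
  -- there is an edge
  have hn1 : 0 < n := by
    rcases hn0.eq_or_lt with h | h
    · exfalso
      have h1 : Fintype.card V = 0 := by
        have : (Fintype.card V : ℝ) = 0 := h.symm
        exact_mod_cast this
      rw [Fintype.card_eq_zero_iff] at h1
      have h2 : G.edgeFinset.card ≠ 0 := by
        intro h3
        rw [he, h3] at he1
        simp at he1
      obtain ⟨x, hx⟩ := Finset.card_ne_zero.mp h2
      induction x with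
      | _ x y => exact h1.elim x
    · exact h
  rcases le_or_gt e (4 * n) with hle | hgt
  · -- few edges
    have h1 : (e / (4 * n)) ^ k ≤ 1 := by
      apply pow_le_one₀ (by positivity)
      rw [div_le_one (by positivity)]
      exact hle
    refine h1.trans ?_
    have h2 : 1 ≤ (G.adjMatrix ℝ - lam • (1 : Matrix V V ℝ)).rank := by
      have h2 : G.edgeFinset.card ≠ 0 := by
        intro h3
        rw [he, h3] at he1
        simp at he1
      obtain ⟨x, hx⟩ := Finset.card_ne_zero.mp h2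
      induction x with
      | _ x y =>
        rw [SimpleGraph.mem_edgeFinset, SimpleGraph.mem_edgeSet] at hx
        apply rank_pos_of_entry _ (x := x) (y := y)
        simp [SimpleGraph.adjMatrix_apply, hx, hx.ne, Matrix.one_apply]
    rw [hρ]
    exact_mod_cast h2
  · -- many edges
    obtain ⟨S, hS1, hS2⟩ := peel G (e / (2 * n))
    have hdeg : ∑ u, (dS G univ u : ℝ) = 2 * e := by
      have h1 := G.sum_degrees_eq_twice_card_edges
      have h2 : ∑ u, (dS G univ u : ℝ) = ((∑ u, G.degree u : ℕ) : ℝ) := by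
        push_cast
        exact Finset.sum_congr rfl fun u _ => by rw [dS_univ]
      rw [h2, h1]
      push_cast
      rfl
    rw [hdeg] at hS2
    set a : ℝ := e / (2 * n) with ha
    have ha2 : 2 < a := by
      rw [ha, lt_div_iff₀ (by positivity)]
      linarith
    have han : 2 * a * n = e := by
      rw [ha]
      field_simp
    rw [← hn] at hS2
    have hD1 : e ≤ ∑ u ∈ S, (dS G S u : ℝ) := by
      have : 0 ≤ 2 * a * S.card := by positivity
      linarith
    set D1 : ℝ := ∑ u ∈ S, (dS G S u : ℝ) with hD1'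
    -- the integer δ
    have hc : 2 < ⌈a⌉₊ := by
      rw [Nat.lt_ceil]
      exact_mod_cast ha2
    obtain ⟨δ, hδ⟩ : ∃ δ, ⌈a⌉₊ = δ + 1 := ⟨⌈a⌉₊ - 1, by omega⟩
    have hδS : ∀ w ∈ S, δ + 1 ≤ dS G S w := by
      intro w hw
      rw [← hδ]
      exact Nat.ceil_le.mpr (hS1 w hw)
    have hδa : a / 2 ≤ (δ : ℝ) := by
      have h1 : a ≤ (⌈a⌉₊ : ℝ) := Nat.le_ceil a
      rw [hδ] at h1
      push_cast at h1
      linarith
    have hsm := second_moment G S hk hg hδS
    -- the second moment over the reals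
    have hsmR : (∑ u ∈ S, (dS G S u : ℝ) ^ 2) * (δ : ℝ) ^ (k - 2) ≤ 2 * n ^ 2 := by
      have h1 : ((∑ u ∈ S, dS G S u * (dS G S u - 1) : ℕ) : ℝ) * (δ : ℝ) ^ (k - 2) ≤ n * n := by
        rw [hn]
        exact_mod_cast hsm
      have h2 : ∑ u ∈ S, (dS G S u : ℝ) ^ 2 ≤ 2 * ((∑ u ∈ S, dS G S u * (dS G S u - 1) : ℕ) : ℝ) := by
        push_cast
        rw [Finset.mul_sum]
        apply Finset.sum_le_sum
        intro u hu
        have h3 := hδS u hu
        have h4 : 2 ≤ dS G S u := by omega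
        rw [Nat.cast_sub (by omega)]
        have h5 : (2 : ℝ) ≤ dS G S u := by exact_mod_cast h4
        push_cast
        nlinarith
      have h3 : (0 : ℝ) ≤ (δ : ℝ) ^ (k - 2) := by positivity
      nlinarith [mul_le_mul_of_nonneg_right h2 h3]
    have hmain := rank_degrees G S lam (four_of_girth G hk hg) (three_of_girth G hk hg)
    rw [← hD1', ← hρ] at hmain
    set D2 : ℝ := ∑ u ∈ S, (dS G S u : ℝ) ^ 2 with hD2
    have hD20 : 0 ≤ D2 := Finset.sum_nonneg fun u _ => by positivity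
    have hp0 : (0 : ℝ) ≤ (δ : ℝ) ^ (k - 2) := by positivity
    have h1 : D1 ^ 2 * (δ : ℝ) ^ (k - 2) ≤ 6 * ρ * n ^ 2 := by
      calc D1 ^ 2 * (δ : ℝ) ^ (k - 2) ≤ (3 * ρ * D2) * (δ : ℝ) ^ (k - 2) :=
            mul_le_mul_of_nonneg_right hmain hp0
        _ = 3 * ρ * (D2 * (δ : ℝ) ^ (k - 2)) := by ring
        _ ≤ 3 * ρ * (2 * n ^ 2) := mul_le_mul_of_nonneg_left hsmR (by positivity)
        _ = 6 * ρ * n ^ 2 := by ring
    have h2 : e ^ 2 * (a / 2) ^ (k - 2) ≤ D1 ^ 2 * (δ : ℝ) ^ (k - 2) := by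
      apply mul_le_mul
      · exact pow_le_pow_left₀ he0 hD1 2
      · exact pow_le_pow_left₀ (by linarith) hδa _
      · exact pow_nonneg (by linarith) _
      · positivity
    have h3 : e / (4 * n) = a / 2 := by
      rw [ha]
      field_simp
      norm_num
    have h4 : e = 4 * n * (a / 2) := by
      rw [← h3]
      field_simp
    have h5 : (a / 2) ^ k = (a / 2) ^ 2 * (a / 2) ^ (k - 2) := by
      rw [← pow_add]
      congr 1
      omega
    rw [h3, h5]
    have h6 : 16 * n ^ 2 * ((a / 2) ^ 2 * (a / 2) ^ (k - 2)) ≤ 6 * ρ * n ^ 2 := by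
      calc 16 * n ^ 2 * ((a / 2) ^ 2 * (a / 2) ^ (k - 2)) = (4 * n * (a / 2)) ^ 2 * (a / 2) ^ (k - 2) := by ring
        _ = e ^ 2 * (a / 2) ^ (k - 2) := by rw [← h4]
        _ ≤ _ := h2.trans h1
    have h7 : 0 < n ^ 2 := by positivity
    nlinarith

end Pool.Agent.X73.RK
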