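import Mathlib

set_option autoImplicit false
set_option linter.unusedSectionVars false

/-!
# Moments of the spectral measures of a real symmetric matrix
-/

namespace Pool.Agent.X73.RK

open Finset Matrix

variable {V : Type} [Fintype V] [DecidableEq V]

theorem pow_diag {C U : Matrix V V ℝ} {e : V → ℝ} (h0 : U * Uᵀ = 1) (h1 : Uᵀ * U = 1)
    (h2 : C = U * diagonal e * Uᵀ) (m : ℕ) : C ^ m = U * diagonal (fun i => e i ^ m) * Uᵀ := by
  induction m with
  | zero =>
    have : diagonal (fun i => e i ^ 0) = (1 : Matrix V V ℝ) := by simp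
    rw [this, mul_one, h0, pow_zero]
  | succ m ih =>
    rw [pow_succ, ih, h2]
    calc U * diagonal (fun i => e i ^ m) * Uᵀ * (U * diagonal e * Uᵀ)
        = U * (diagonal (fun i => e i ^ m) * (Uᵀ * U) * diagonal e) * Uᵀ := by
          simp only [mul_assoc]
      _ = _ := by
          rw [h1, mul_one, diagonal_mul_diagonal]
          rfl

theorem spec (C : Matrix V V ℝ) (hC : C.IsHermitian) :
    ∃ (e : V → ℝ) (U : Matrix V V ℝ), U * Uᵀ = 1 ∧ Uᵀ * U = 1 ∧
      (∀ m : ℕ, C ^ m = U * diagonal (fun i => e i ^ m) * Uᵀ) ∧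
      C.rank = (univ.filter (fun i => e i ≠ 0)).card := by
  have h0 : (hC.eigenvectorUnitary : Matrix V V ℝ) * (hC.eigenvectorUnitary : Matrix V V ℝ)ᵀ = 1 := by
    have := Unitary.coe_mul_star_self hC.eigenvectorUnitary
    simpa [star_eq_conjTranspose, conjTranspose_eq_transpose_of_trivial] using this
  have h1 : (hC.eigenvectorUnitary : Matrix V V ℝ)ᵀ * (hC.eigenvectorUnitary : Matrix V V ℝ) = 1 := by
    have := Unitary.coe_star_mul_self hC.eigenvectorUnitary
    simpa [star_eq_conjTranspose, conjTranspose_eq_transpose_of_trivial] using this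
  have h2 : C = (hC.eigenvectorUnitary : Matrix V V ℝ) * diagonal hC.eigenvalues *
      (hC.eigenvectorUnitary : Matrix V V ℝ)ᵀ := by
    have h := hC.spectral_theorem
    rw [Unitary.conjStarAlgAut_apply] at h
    simpa [star_eq_conjTranspose, conjTranspose_eq_transpose_of_trivial] using! h
  exact ⟨hC.eigenvalues, (hC.eigenvectorUnitary : Matrix V V ℝ), h0, h1, pow_diag h0 h1 h2, by
    rw [hC.rank_eq_card_non_zero_eigs, Fintype.card_subtype]⟩

theorem diag_entry {C U : Matrix V V ℝ} {d : V → ℝ} (h : C = U * diagonal d * Uᵀ) (y : V) :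
    C y y = ∑ i, d i * U y i ^ 2 := by
  rw [h, Matrix.mul_apply]
  apply Finset.sum_congr rfl
  intro i _
  rw [mul_diagonal, transpose_apply]
  ring

theorem trace_entry {C U : Matrix V V ℝ} {d : V → ℝ} (h1 : Uᵀ * U = 1)
    (h : C = U * diagonal d * Uᵀ) : C.trace = ∑ i, d i := by
  rw [h, mul_assoc, trace_mul_comm, mul_assoc, h1, mul_one, trace_diagonal]

/-- the pointwise inequality -/
theorem pow_pow_le (a b : ℝ) (p q : ℕ) (h : Even (p + q)) :
    a ^ p * b ^ q + a ^ q * b ^ p ≤ a ^ (p + q) + b ^ (p + q) := by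
  have h1 : a ^ (p + q) = |a| ^ p * |a| ^ q := by
    rw [← pow_add, h.pow_abs]
  have h2 : b ^ (p + q) = |b| ^ p * |b| ^ q := by
    rw [← pow_add, h.pow_abs]
  have h3 : a ^ p * b ^ q ≤ |a| ^ p * |b| ^ q := by
    rw [← abs_pow, ← abs_pow, ← abs_mul]
    exact le_abs_self _
  have h4 : a ^ q * b ^ p ≤ |a| ^ q * |b| ^ p := by
    rw [← abs_pow, ← abs_pow, ← abs_mul]
    exact le_abs_self _
  rw [h1, h2]
  refine (add_le_add h3 h4).trans ?_
  have h5 : 0 ≤ (|a| ^ p - |b| ^ p) * (|a| ^ q - |b| ^ q) := by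
    rcases le_total |a| |b| with h | h
    · have e1 := pow_le_pow_left₀ (abs_nonneg a) h p
      have e2 := pow_le_pow_left₀ (abs_nonneg a) h q
      nlinarith
    · have e1 := pow_le_pow_left₀ (abs_nonneg b) h p
      have e2 := pow_le_pow_left₀ (abs_nonneg b) h q
      nlinarith
  nlinarith

/-- log-convexity of moments -/
theorem moment_le {ι : Type} [Fintype ι] (e w : ι → ℝ) (hw : ∀ i, 0 ≤ w i) (s t : ℕ)
    (hs : 2 ≤ s) (ht : 2 ≤ t) (h : Even (s + t)) :
    (∑ i, e i ^ s * w i) * (∑ i, e i ^ t * w i) ≤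
      (∑ i, e i ^ 2 * w i) * (∑ i, e i ^ (s + t - 2) * w i) := by
  obtain ⟨p, rfl⟩ : ∃ p, s = p + 2 := ⟨s - 2, by omega⟩
  obtain ⟨q, rfl⟩ : ∃ q, t = q + 2 := ⟨t - 2, by omega⟩
  have hpq : Even (p + q) := by
    have : p + 2 + (q + 2) = (p + q) + 4 := by ring
    rw [this, Nat.even_add] at h
    exact h.mpr (by decide)
  have e0 : p + 2 + (q + 2) - 2 = p + q + 2 := by omega
  rw [e0]
  have key : 2 * ((∑ i, e i ^ (p + 2) * w i) * (∑ i, e i ^ (q + 2) * w i)) ≤
      2 * ((∑ i, e i ^ 2 * w i) * (∑ i, e i ^ (p + q + 2) * w i)) := by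
    have l1 : 2 * ((∑ i, e i ^ (p + 2) * w i) * (∑ i, e i ^ (q + 2) * w i)) =
        ∑ i, ∑ j, (e i ^ (p + 2) * e j ^ (q + 2) + e i ^ (q + 2) * e j ^ (p + 2)) * (w i * w j) := by
      have a1 : (∑ i, e i ^ (p + 2) * w i) * (∑ i, e i ^ (q + 2) * w i) =
          ∑ i, ∑ j, (e i ^ (p + 2) * e j ^ (q + 2)) * (w i * w j) := by
        rw [Finset.sum_mul_sum]
        exact Finset.sum_congr rfl fun i _ => Finset.sum_congr rfl fun j _ => by ring
      have a2 : (∑ i, e i ^ (p + 2) * w i) * (∑ i, e i ^ (q + 2) * w i) =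
          ∑ i, ∑ j, (e i ^ (q + 2) * e j ^ (p + 2)) * (w i * w j) := by
        rw [mul_comm, Finset.sum_mul_sum]
        exact Finset.sum_congr rfl fun i _ => Finset.sum_congr rfl fun j _ => by ring
      rw [two_mul]
      nth_rewrite 1 [a1]
      rw [a2, ← Finset.sum_add_distrib]
      refine Finset.sum_congr rfl fun i _ => ?_
      rw [← Finset.sum_add_distrib]
      exact Finset.sum_congr rfl fun j _ => by ring
    have l2 : 2 * ((∑ i, e i ^ 2 * w i) * (∑ i, e i ^ (p + q + 2) * w i)) =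
        ∑ i, ∑ j, (e i ^ 2 * e j ^ (p + q + 2) + e i ^ (p + q + 2) * e j ^ 2) * (w i * w j) := by
      have a1 : (∑ i, e i ^ 2 * w i) * (∑ i, e i ^ (p + q + 2) * w i) =
          ∑ i, ∑ j, (e i ^ 2 * e j ^ (p + q + 2)) * (w i * w j) := by
        rw [Finset.sum_mul_sum]
        exact Finset.sum_congr rfl fun i _ => Finset.sum_congr rfl fun j _ => by ring
      have a2 : (∑ i, e i ^ 2 * w i) * (∑ i, e i ^ (p + q + 2) * w i) =
          ∑ i, ∑ j, (e i ^ (p + q + 2) * e j ^ 2) * (w i * w j) := by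
        rw [mul_comm, Finset.sum_mul_sum]
        exact Finset.sum_congr rfl fun i _ => Finset.sum_congr rfl fun j _ => by ring
      rw [two_mul]
      nth_rewrite 1 [a1]
      rw [a2, ← Finset.sum_add_distrib]
      refine Finset.sum_congr rfl fun i _ => ?_
      rw [← Finset.sum_add_distrib]
      exact Finset.sum_congr rfl fun j _ => by ring
    rw [l1, l2]
    apply Finset.sum_le_sum
    intro i _
    apply Finset.sum_le_sum
    intro j _
    apply mul_le_mul_of_nonneg_right _ (mul_nonneg (hw i) (hw j))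
    have h5 := pow_pow_le (e i) (e j) p q hpq
    have h6 : 0 ≤ e i ^ 2 * e j ^ 2 := by positivity
    have h7 := mul_le_mul_of_nonneg_left h5 h6
    calc e i ^ (p + 2) * e j ^ (q + 2) + e i ^ (q + 2) * e j ^ (p + 2)
        = e i ^ 2 * e j ^ 2 * (e i ^ p * e j ^ q + e i ^ q * e j ^ p) := by ring
      _ ≤ e i ^ 2 * e j ^ 2 * (e i ^ (p + q) + e j ^ (p + q)) := h7
      _ = _ := by ring
  linarith

theorem diag_mul_le (C : Matrix V V ℝ) (hC : C.IsHermitian) (y : V) (s t : ℕ)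
    (hs : 2 ≤ s) (ht : 2 ≤ t) (h : Even (s + t)) :
    (C ^ s) y y * (C ^ t) y y ≤ (C ^ 2) y y * (C ^ (s + t - 2)) y y := by
  obtain ⟨e, U, -, -, hp, -⟩ := spec C hC
  rw [diag_entry (hp s), diag_entry (hp t), diag_entry (hp 2), diag_entry (hp (s + t - 2))]
  exact moment_le e (fun i => U y i ^ 2) (fun i => sq_nonneg _) s t hs ht h

/-- Young's inequality for integer exponents -/
theorem young_nat (μ c : ℝ) (hμ : 0 < μ) (hc : 0 ≤ c) (k : ℕ) (hk : 1 ≤ k) :
    k * (c * μ ^ (k - 1)) ≤ (k - 1) * μ ^ k + c ^ k := by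
  have h1 : 1 + (k : ℝ) * (c / μ - 1) ≤ (1 + (c / μ - 1)) ^ k := by
    apply one_add_mul_le_pow
    have : 0 ≤ c / μ := by positivity
    linarith
  have h2 : (1 + (c / μ - 1)) = c / μ := by ring
  rw [h2] at h1
  have h3 := mul_le_mul_of_nonneg_right h1 (pow_pos hμ k).le
  have h4 : (c / μ) ^ k * μ ^ k = c ^ k := by
    rw [← mul_pow, div_mul_cancel₀ _ hμ.ne']
  rw [h4] at h3
  have h5 : μ ^ k = μ * μ ^ (k - 1) := by
    rw [← pow_succ']
    congr 1
    omega
  have h6 : (1 + (k : ℝ) * (c / μ - 1)) * μ ^ k = μ ^ k + k * (c * μ ^ (k - 1)) - k * μ ^ k := by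
    have : c / μ * μ ^ k = c * μ ^ (k - 1) := by
      rw [h5]
      field_simp
    calc (1 + (k : ℝ) * (c / μ - 1)) * μ ^ k = μ ^ k + k * (c / μ * μ ^ k) - k * μ ^ k := by ring
      _ = _ := by rw [this]
  rw [h6] at h3
  linarith

/-- from the comparison of two moments to the rank -/
theorem rank_of_moments (C : Matrix V V ℝ) (hC : C.IsHermitian) (c : ℝ) (hc : 0 ≤ c) (k : ℕ)
    (hk : 2 ≤ k) (h1 : 1 ≤ (C ^ (2 * k)).trace)
    (h2 : (C ^ (2 * k)).trace ≤ c * (C ^ (2 * k - 2)).trace) : 1 ≤ c ^ k * C.rank := by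
  obtain ⟨e, U, -, hU, hp, hr⟩ := spec C hC
  rw [trace_entry hU (hp (2 * k))] at h1 h2
  rw [trace_entry hU (hp (2 * k - 2))] at h2
  rw [hr]
  have e1 : ∑ i, e i ^ (2 * k) = ∑ i ∈ univ.filter (fun i => e i ≠ 0), e i ^ (2 * k) := by
    rw [Finset.sum_filter_of_ne]
    intro i _ h hi
    apply h
    rw [hi, zero_pow (by omega)]
  have e2 : ∑ i, e i ^ (2 * k - 2) = ∑ i ∈ univ.filter (fun i => e i ≠ 0), e i ^ (2 * k - 2) := by
    rw [Finset.sum_filter_of_ne]
    intro i _ h hi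
    apply h
    rw [hi, zero_pow (by omega)]
  rw [e1] at h1 h2
  rw [e2] at h2
  set S := univ.filter (fun i => e i ≠ 0) with hS
  have h3 : (k : ℝ) * (c * ∑ i ∈ S, e i ^ (2 * k - 2)) ≤
      (k - 1) * ∑ i ∈ S, e i ^ (2 * k) + c ^ k * S.card := by
    have : (k : ℝ) * (c * ∑ i ∈ S, e i ^ (2 * k - 2)) =
        ∑ i ∈ S, (k : ℝ) * (c * e i ^ (2 * k - 2)) := by
      rw [Finset.mul_sum, Finset.mul_sum]
    rw [this]
    have : (k - 1) * ∑ i ∈ S, e i ^ (2 * k) + c ^ k * S.card =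
        ∑ i ∈ S, (((k : ℝ) - 1) * e i ^ (2 * k) + c ^ k) := by
      rw [Finset.sum_add_distrib, Finset.mul_sum, Finset.sum_const, nsmul_eq_mul]
      ring
    rw [this]
    apply Finset.sum_le_sum
    intro i hi
    rw [hS, mem_filter] at hi
    have hpos : 0 < e i ^ 2 := by
      have := hi.2
      positivity
    have hy := young_nat (e i ^ 2) c hpos hc k (by omega)
    rw [← pow_mul, ← pow_mul] at hy
    have : 2 * (k - 1) = 2 * k - 2 := by omega
    rwa [this] at hy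
  have hk' : (2 : ℝ) ≤ k := by exact_mod_cast hk
  have h4 : (k : ℝ) * ∑ i ∈ S, e i ^ (2 * k) ≤ (k : ℝ) * (c * ∑ i ∈ S, e i ^ (2 * k - 2)) :=
    mul_le_mul_of_nonneg_left h2 (by linarith)
  linarith

end Pool.Agent.X73.RK
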