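import Mathlib

set_option autoImplicit false
set_option linter.unusedSectionVars false

/-!
# Weighted closed walks in graphs without a cycle of length `2 k`
-/

namespace Pool.Agent.X73.RK

open Finset Matrix

variable {V : Type} [Fintype V] [DecidableEq V]

/-- weight of a walk given by a function -/
def pw (M : Matrix V V ℝ) {n : ℕ} (f : Fin (n + 1) → V) : ℝ :=
  ∏ i : Fin n, M (f i.castSucc) (f i.succ)

/-- alternating products with diagonal matrices -/
def RR (M : Matrix V V ℝ) (D : ℕ → V → ℝ) : ℕ → Matrix V V ℝ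
  | 0 => diagonal (D 0)
  | n + 1 => RR M D n * M * diagonal (D (n + 1))

theorem pw_snoc (M : Matrix V V ℝ) {n : ℕ} (g : Fin (n + 1) → V) (c : V) :
    pw M (Fin.snoc g c : Fin (n + 1 + 1) → V) = pw M g * M (g (Fin.last n)) c := by
  unfold pw
  rw [Fin.prod_univ_castSucc]
  congr 1
  · apply Finset.prod_congr rfl
    intro i _
    rw [← Fin.castSucc_succ, Fin.snoc_castSucc (α := fun _ => V),
      Fin.snoc_castSucc (α := fun _ => V)]
  · rw [Fin.succ_last, Fin.snoc_last (α := fun _ => V), Fin.snoc_castSucc (α := fun _ => V)]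

theorem prod_snoc (D : ℕ → V → ℝ) {n : ℕ} (g : Fin (n + 1) → V) (c : V) :
    ∏ i : Fin (n + 1 + 1), D i ((Fin.snoc g c : Fin (n + 1 + 1) → V) i) =
      (∏ i : Fin (n + 1), D i (g i)) * D (n + 1) c := by
  rw [Fin.prod_univ_castSucc]
  congr 1
  · apply Finset.prod_congr rfl
    intro i _
    rw [Fin.snoc_castSucc (α := fun _ => V), Fin.val_castSucc]
  · rw [Fin.snoc_last (α := fun _ => V), Fin.val_last]

theorem RR_apply (M : Matrix V V ℝ) (D : ℕ → V → ℝ) : ∀ (n : ℕ) (a b : V), RR M D n a b =
    ∑ f : Fin (n + 1) → V, if f 0 = a ∧ f (Fin.last n) = b then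
      (∏ i : Fin (n + 1), D i (f i)) * pw M f else 0 := by
  intro n
  induction n with
  | zero =>
    intro a b
    rw [← (Equiv.funUnique (Fin 1) V).symm.sum_comp]
    have e1 : ∀ x : V, (if ((Equiv.funUnique (Fin 1) V).symm x) 0 = a ∧
        ((Equiv.funUnique (Fin 1) V).symm x) (Fin.last 0) = b then
        (∏ i : Fin (0 + 1), D i (((Equiv.funUnique (Fin 1) V).symm x) i)) *
          pw M ((Equiv.funUnique (Fin 1) V).symm x) else 0) =
        if x = a then (if a = b then D 0 a else 0) else 0 := by
      intro x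
      by_cases hx : x = a
      · subst hx
        by_cases hb : x = b
        · subst hb
          simp [pw]
        · simp [hb]
      · simp [hx]
    rw [Finset.sum_congr rfl fun x _ => e1 x, Finset.sum_ite_eq' univ a]
    simp [RR, diagonal_apply]
  | succ n ih =>
    intro a b
    rw [← (Fin.snocEquiv (fun _ : Fin (n + 1 + 1) => V)).sum_comp, Fintype.sum_prod_type]
    have e1 : ∀ (c : V) (g : Fin (n + 1) → V),
        (if (Fin.snocEquiv (fun _ : Fin (n + 1 + 1) => V)) (c, g) 0 = a ∧
          (Fin.snocEquiv (fun _ : Fin (n + 1 + 1) => V)) (c, g) (Fin.last (n + 1)) = b then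
        (∏ i : Fin (n + 1 + 1), D i ((Fin.snocEquiv (fun _ : Fin (n + 1 + 1) => V)) (c, g) i)) *
          pw M ((Fin.snocEquiv (fun _ : Fin (n + 1 + 1) => V)) (c, g)) else 0) =
        if c = b then (if g 0 = a then ((∏ i : Fin (n + 1), D i (g i)) * pw M g) *
          (M (g (Fin.last n)) b * D (n + 1) b) else 0) else 0 := by
      intro c g
      have h0 : (Fin.snocEquiv (fun _ : Fin (n + 1 + 1) => V)) (c, g) = Fin.snoc g c := rfl
      have h1 : (Fin.snoc g c : Fin (n + 1 + 1) → V) 0 = g 0 := by
        rw [← Fin.castSucc_zero, Fin.snoc_castSucc (α := fun _ => V)]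
      have h2 : (Fin.snoc g c : Fin (n + 1 + 1) → V) (Fin.last (n + 1)) = c :=
        Fin.snoc_last (α := fun _ => V) _ _
      rw [h0, h1, h2, pw_snoc, prod_snoc]
      by_cases hc : c = b
      · subst hc
        by_cases hg : g 0 = a
        · simp only [hg, and_self, if_true]
          ring
        · simp only [hg, false_and, if_false, if_true]
      · simp only [hc, and_false, if_false]
    rw [Finset.sum_congr rfl fun c _ => Finset.sum_congr rfl fun g _ => e1 c g]
    rw [Finset.sum_comm]
    have e2 : ∀ g : Fin (n + 1) → V, (∑ c : V, if c = b then (if g 0 = a then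
        ((∏ i : Fin (n + 1), D i (g i)) * pw M g) * (M (g (Fin.last n)) b * D (n + 1) b) else 0)
          else 0) = if g 0 = a then ((∏ i : Fin (n + 1), D i (g i)) * pw M g) *
          (M (g (Fin.last n)) b * D (n + 1) b) else 0 := by
      intro g
      rw [Finset.sum_ite_eq' univ b]
      simp
    rw [Finset.sum_congr rfl fun g _ => e2 g]
    show (RR M D n * M * diagonal (D (n + 1))) a b = _
    rw [mul_diagonal, Matrix.mul_apply, Finset.sum_mul]
    rw [Finset.sum_congr rfl fun c _ => by rw [ih a c, Finset.sum_mul, Finset.sum_mul]]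
    rw [Finset.sum_comm]
    apply Finset.sum_congr rfl
    intro g _
    have e3 : ∀ c : V, (if g 0 = a ∧ g (Fin.last n) = c then (∏ i : Fin (n + 1), D i (g i)) * pw M g
        else 0) * M c b * D (n + 1) b = if g (Fin.last n) = c then (if g 0 = a then
          ((∏ i : Fin (n + 1), D i (g i)) * pw M g) * (M (g (Fin.last n)) b * D (n + 1) b) else 0)
          else 0 := by
      intro c
      by_cases hc : g (Fin.last n) = c
      · subst hc
        by_cases hg : g 0 = a
        · simp only [hg, and_self, if_true]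
          ring
        · simp only [hg, false_and, if_false, if_true, zero_mul]
      · simp only [hc, and_false, if_false, zero_mul]
    rw [Finset.sum_congr rfl fun c _ => e3 c, Finset.sum_ite_eq]
    simp

/-- without marks in the last part, a power of `M` -/
theorem RR_const (M : Matrix V V ℝ) (D : ℕ → V → ℝ) (a : ℕ) : ∀ (r : ℕ),
    (∀ m, a < m → m ≤ a + r → D m = fun _ => 1) → RR M D (a + r) = RR M D a * M ^ r := by
  intro r
  induction r with
  | zero => intro _; simp
  | succ r ih =>
    intro h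
    show RR M D (a + r) * M * diagonal (D (a + r + 1)) = _
    rw [h (a + r + 1) (by omega) (by omega), diagonal_one, mul_one,
      ih (fun m h1 h2 => h m h1 (by omega)), pow_succ, mul_assoc]

theorem RR_one (M : Matrix V V ℝ) (D : ℕ → V → ℝ) (r : ℕ)
    (h : ∀ m, m ≤ r → D m = fun _ => 1) : RR M D r = M ^ r := by
  have h1 := RR_const M D 0 r (fun m _ h2 => h m (by omega))
  rw [zero_add] at h1
  rw [h1]
  show diagonal (D 0) * M ^ r = _
  rw [h 0 (by omega), diagonal_one, one_mul]

/-- marks at the times `i` and `j` -/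
def mark (i j : ℕ) (y : V) (m : ℕ) (v : V) : ℝ :=
  if m = i ∨ m = j then (if v = y then 1 else 0) else 1

/-- the diagonal matrix unit -/
def EE (y : V) : Matrix V V ℝ := diagonal (fun v => if v = y then 1 else 0)

theorem RR_at (M : Matrix V V ℝ) (i j : ℕ) (y : V) (hij : i < j) :
    RR M (mark i j y) i = M ^ i * EE y := by
  have hm : mark i j y i = fun v => if v = y then 1 else 0 := by
    funext v
    simp [mark]
  rcases Nat.eq_zero_or_pos i with h | h
  · subst h
    show diagonal (mark 0 j y 0) = _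
    rw [hm, pow_zero, one_mul, EE]
  · obtain ⟨i', rfl⟩ : ∃ i', i = i' + 1 := ⟨i - 1, by omega⟩
    show RR M (mark (i' + 1) j y) i' * M * diagonal (mark (i' + 1) j y (i' + 1)) = _
    rw [hm, RR_one, ← pow_succ, EE]
    intro m hmle
    funext v
    unfold mark
    rw [if_neg (by omega)]

theorem RR_at2 (M : Matrix V V ℝ) (i j : ℕ) (y : V) (hij : i < j) :
    RR M (mark i j y) j = M ^ i * EE y * M ^ (j - i) * EE y := by
  obtain ⟨r, rfl⟩ : ∃ r, j = i + r + 1 := ⟨j - i - 1, by omega⟩
  have hm : mark i (i + r + 1) y (i + r + 1) = fun v => if v = y then 1 else 0 := by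
    funext v
    simp [mark]
  show RR M (mark i (i + r + 1) y) (i + r) * M * diagonal (mark i (i + r + 1) y (i + r + 1)) = _
  rw [hm, RR_const, RR_at M i (i + r + 1) y (by omega)]
  · have e : i + r + 1 - i = r + 1 := by omega
    rw [e, pow_succ, EE]
    simp only [mul_assoc]
  · intro m h1 h2
    funext v
    unfold mark
    rw [if_neg (by omega)]

theorem RR_end (M : Matrix V V ℝ) (i j L : ℕ) (y : V) (hij : i < j) (hj : j ≤ L) :
    RR M (mark i j y) L = M ^ i * EE y * M ^ (j - i) * EE y * M ^ (L - j) := by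
  obtain ⟨r, rfl⟩ : ∃ r, L = j + r := ⟨L - j, by omega⟩
  rw [RR_const, RR_at2 M i j y hij]
  · have e : j + r - j = r := by omega
    rw [e]
  · intro m h1 h2
    funext v
    unfold mark
    rw [if_neg (by omega)]

theorem EE_mul_EE (X : Matrix V V ℝ) (y : V) : EE y * X * EE y = X y y • EE y := by
  ext a b
  rw [EE, mul_diagonal, diagonal_mul, Matrix.smul_apply, diagonal_apply, smul_eq_mul]
  by_cases ha : a = y
  · subst ha
    by_cases hb : b = a
    · subst hb; simp
    · have hb' : ¬ a = b := fun h => hb h.symm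
      simp [hb, hb']
  · simp [ha]

theorem trace_EE (X : Matrix V V ℝ) (y : V) : (EE y * X).trace = X y y := by
  rw [Matrix.trace]
  simp only [diag_apply, EE, diagonal_mul, ite_mul, one_mul, zero_mul]
  rw [Finset.sum_ite_eq' univ y]
  simp

theorem trace_RR (M : Matrix V V ℝ) (i j L : ℕ) (y : V) (hij : i < j) (hj : j ≤ L) :
    (RR M (mark i j y) L).trace = (M ^ (j - i)) y y * (M ^ (L - (j - i))) y y := by
  rw [RR_end M i j L y hij hj]
  have e1 : M ^ i * EE y * M ^ (j - i) * EE y * M ^ (L - j) =
      M ^ i * ((EE y * M ^ (j - i) * EE y) * M ^ (L - j)) := by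
    simp only [mul_assoc]
  rw [e1, EE_mul_EE, trace_mul_comm, mul_assoc, Matrix.smul_mul, trace_smul, trace_EE,
    ← pow_add, smul_eq_mul]
  have e2 : L - j + i = L - (j - i) := by omega
  rw [e2]

/-- the trace of an alternating product, as a sum over closed walks -/
theorem trace_RR_sum (M : Matrix V V ℝ) (D : ℕ → V → ℝ) (n : ℕ) : (RR M D n).trace =
    ∑ f : Fin (n + 1) → V, if f 0 = f (Fin.last n) then
      (∏ i : Fin (n + 1), D i (f i)) * pw M f else 0 := by
  rw [Matrix.trace]
  simp only [diag_apply]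
  rw [Finset.sum_congr rfl fun a _ => RR_apply M D n a a, Finset.sum_comm]
  apply Finset.sum_congr rfl
  intro f _
  have e : ∀ a : V, (if f 0 = a ∧ f (Fin.last n) = a then (∏ i : Fin (n + 1), D i (f i)) * pw M f
      else 0) = if f 0 = a then (if f 0 = f (Fin.last n) then
        (∏ i : Fin (n + 1), D i (f i)) * pw M f else 0) else 0 := by
    intro a
    by_cases ha : f 0 = a
    · subst ha
      by_cases hb : f (Fin.last n) = f 0
      · simp [hb]
      · have hb' : ¬ f 0 = f (Fin.last n) := fun h => hb h.symm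
        simp [hb, hb']
    · simp [ha]
  rw [Finset.sum_congr rfl fun a _ => e a, Finset.sum_ite_eq]
  simp

/-- the pairs of times -/
def PP (L : ℕ) : Finset ((_ : ℕ) × ℕ) :=
  (Finset.range L).sigma fun i => Finset.Ico (i + 2) (min L (i + L - 1))

theorem mem_PP {L : ℕ} {p : (_ : ℕ) × ℕ} :
    p ∈ PP L ↔ p.1 + 2 ≤ p.2 ∧ p.2 < L ∧ p.2 + 1 < p.1 + L := by
  unfold PP
  rw [Finset.mem_sigma, Finset.mem_range, Finset.mem_Ico]
  omega

theorem sum_sub (N : ℕ) : 2 * ∑ i ∈ range (N + 1), (N - i) = N * (N + 1) := by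
  induction N with
  | zero => simp
  | succ N ih =>
    rw [Finset.sum_range_succ']
    have : ∑ i ∈ range (N + 1), (N + 1 - (i + 1)) = ∑ i ∈ range (N + 1), (N - i) :=
      Finset.sum_congr rfl fun i _ => by omega
    rw [this, mul_add, ih]
    simp only [Nat.sub_zero]
    ring

theorem card_PP {k : ℕ} (hk : 2 ≤ k) : (PP (2 * k)).card = k * (2 * k - 3) := by
  obtain ⟨m, rfl⟩ : ∃ m, k = m + 2 := ⟨k - 2, by omega⟩
  unfold PP
  rw [Finset.card_sigma]
  have e1 : 2 * (m + 2) = 2 * m + 3 + 1 := by ring
  rw [e1, Finset.sum_range_succ']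
  have e2 : ∑ i ∈ range (2 * m + 3), (Finset.Ico (i + 1 + 2)
      (min (2 * m + 3 + 1) (i + 1 + (2 * m + 3 + 1) - 1))).card =
      ∑ i ∈ range (2 * m + 1 + 1 + 1), (2 * m + 1 - i) := by
    apply Finset.sum_congr rfl
    intro i _
    rw [Nat.card_Ico]
    omega
  rw [e2, Finset.sum_range_succ, Nat.card_Ico]
  have h := sum_sub (2 * m + 1)
  have e3 : (m + 2) * (2 * m + 3 + 1 - 3) = 2 * m * m + 5 * m + 2 := by
    have : 2 * m + 3 + 1 - 3 = 2 * m + 1 := by omega
    rw [this]; ring
  rw [e3]
  have e4 : (2 * m + 1) * (2 * m + 1 + 1) = 2 * (2 * m * m + 3 * m + 1) := by ring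
  rw [e4] at h
  have h5 : ∑ i ∈ range (2 * m + 1 + 1), (2 * m + 1 - i) = 2 * m * m + 3 * m + 1 := by omega
  rw [h5]
  omega

/-- a closed walk of length `n + 2` in a graph without a cycle of this length repeats a vertex -/
theorem exists_repeat {G : SimpleGraph V} {n : ℕ}
    (hG : (SimpleGraph.cycleGraph (n + 2)).Free G) (f : Fin (n + 2 + 1) → V)
    (hf : ∀ m : Fin (n + 2), G.Adj (f m.castSucc) (f m.succ)) (h0 : f 0 = f (Fin.last (n + 2))) :
    ∃ a b : Fin (n + 2), (⟨(a : ℕ), (b : ℕ)⟩ : (_ : ℕ) × ℕ) ∈ PP (n + 2) ∧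
      f a.castSucc = f b.castSucc := by
  -- the next vertex
  have hnext : ∀ u : Fin (n + 2), f (u + 1).castSucc = f u.succ := by
    intro u
    by_cases hu : u = Fin.last (n + 1)
    · subst hu
      rw [Fin.last_add_one, Fin.castSucc_zero, h0, Fin.succ_last]
    · congr 1
      ext
      rw [Fin.val_castSucc, Fin.val_succ, Fin.val_add_one, if_neg hu]
  have hninj : ¬ Function.Injective (fun m : Fin (n + 2) => f m.castSucc) := by
    intro hinj
    apply hG
    refine ⟨⟨⟨fun m => f m.castSucc, ?_⟩, hinj⟩⟩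
    intro u v huv
    rw [SimpleGraph.cycleGraph_adj] at huv
    rcases huv with h | h
    · have hu : u = v + 1 := by rw [← h]; abel
      subst hu
      have := (hf v).symm
      rw [← hnext v] at this
      exact this
    · have hv : v = u + 1 := by rw [← h]; abel
      subst hv
      have := hf u
      rw [← hnext u] at this
      exact this
  rw [Function.not_injective_iff] at hninj
  have main : ∀ a b : Fin (n + 2), f a.castSucc = f b.castSucc → a < b →
      (⟨(a : ℕ), (b : ℕ)⟩ : (_ : ℕ) × ℕ) ∈ PP (n + 2) := by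
    intro a b hab hlt
    rw [mem_PP]
    have hlt' : (a : ℕ) < b := hlt
    refine ⟨?_, b.2, ?_⟩
    · show (a : ℕ) + 2 ≤ b
      by_contra hcon
      have hb : (b : ℕ) = a + 1 := by omega
      have : b.castSucc = a.succ := by
        ext
        rw [Fin.val_castSucc, Fin.val_succ]
        exact hb
      have h1 := hf a
      rw [← this, ← hab] at h1
      exact G.loopless.irrefl _ h1
    · show (b : ℕ) + 1 < a + (n + 2)
      by_contra hcon
      have hb2 := b.2
      have ha0 : (a : ℕ) = 0 := by omega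
      have hbn : (b : ℕ) = n + 1 := by omega
      have h1 := hf b
      have e1 : b.succ = Fin.last (n + 2) := by
        ext
        rw [Fin.val_succ, Fin.val_last]
        omega
      have e2 : a.castSucc = 0 := by
        ext
        rw [Fin.val_castSucc]
        exact ha0
      rw [e1, ← h0, ← hab, e2] at h1
      exact G.loopless.irrefl _ h1
  obtain ⟨a, b, hab, hne⟩ := hninj
  rcases lt_or_gt_of_ne hne with h | h
  · exact ⟨a, b, main a b hab h, hab⟩
  · exact ⟨b, a, main b a hab.symm h, hab.symm⟩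

/-- the trace of `M ^ (2 k)` for a nonnegative matrix supported on the edges of a graph without a
cycle of length `2 k` -/
theorem trace_le (G : SimpleGraph V) (M : Matrix V V ℝ) (hM0 : ∀ x y, 0 ≤ M x y)
    (hMG : ∀ x y, M x y ≠ 0 → G.Adj x y) {k : ℕ} (hk : 2 ≤ k)
    (hG : (SimpleGraph.cycleGraph (2 * k)).Free G) :
    (M ^ (2 * k)).trace ≤
      ∑ p ∈ PP (2 * k), ∑ y, (M ^ (p.2 - p.1)) y y * (M ^ (2 * k - (p.2 - p.1))) y y := by
  obtain ⟨n, hn⟩ : ∃ n, 2 * k = n + 2 := ⟨2 * k - 2, by omega⟩
  rw [hn] at hG ⊢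
  have e1 : (M ^ (n + 2)).trace = (RR M (fun _ _ => 1) (n + 2)).trace := by
    rw [RR_one M _ (n + 2) (fun _ _ => rfl)]
  have e2 : ∑ p ∈ PP (n + 2), ∑ y, (M ^ (p.2 - p.1)) y y * (M ^ (n + 2 - (p.2 - p.1))) y y =
      ∑ p ∈ PP (n + 2), ∑ y, (RR M (mark p.1 p.2 y) (n + 2)).trace := by
    apply Finset.sum_congr rfl
    intro p hp
    rw [mem_PP] at hp
    apply Finset.sum_congr rfl
    intro y _
    rw [trace_RR M p.1 p.2 (n + 2) y (by omega) (by omega)]
  rw [e1, e2, trace_RR_sum]
  rw [Finset.sum_congr rfl fun p _ => Finset.sum_congr rfl fun y _ => trace_RR_sum M _ (n + 2)]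
  rw [Finset.sum_congr rfl fun p _ => Finset.sum_comm, Finset.sum_comm]
  apply Finset.sum_le_sum
  intro f _
  have hpw : 0 ≤ pw M f := Finset.prod_nonneg fun i _ => hM0 _ _
  have hmk : ∀ (i j : ℕ) (y : V), 0 ≤ ∏ m : Fin (n + 2 + 1), mark i j y m (f m) := by
    intro i j y
    apply Finset.prod_nonneg
    intro m _
    unfold mark
    split_ifs <;> norm_num
  by_cases h0 : f 0 = f (Fin.last (n + 2))
  · simp only [h0, if_true, Finset.prod_const_one, one_mul]
    rcases hpw.eq_or_lt with hz | hpos
    · rw [← hz]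
      simp
    · have hf : ∀ m : Fin (n + 2), G.Adj (f m.castSucc) (f m.succ) := by
        intro m
        apply hMG
        intro h
        apply hpos.ne'
        exact Finset.prod_eq_zero (mem_univ m) h
      obtain ⟨a, b, hab, hfab⟩ := exists_repeat hG f hf h0
      have hone : ∏ m : Fin (n + 2 + 1), mark a b (f a.castSucc) m (f m) = 1 := by
        apply Finset.prod_eq_one
        intro m _
        unfold mark
        by_cases hm : (m : ℕ) = a ∨ (m : ℕ) = b
        · rw [if_pos hm, if_pos]
          rcases hm with hm | hm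
          · congr 1
            ext
            rw [Fin.val_castSucc]
            exact hm
          · rw [hfab]
            congr 1
            ext
            rw [Fin.val_castSucc]
            exact hm
        · rw [if_neg hm]
      calc pw M f = (∏ m : Fin (n + 2 + 1), mark a b (f a.castSucc) m (f m)) * pw M f := by
            rw [hone, one_mul]
        _ ≤ ∑ y, (∏ m : Fin (n + 2 + 1), mark a b y m (f m)) * pw M f :=
            Finset.single_le_sum (f := fun y => (∏ m : Fin (n + 2 + 1), mark a b y m (f m)) *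
              pw M f) (fun y _ => mul_nonneg (hmk _ _ _) hpw) (mem_univ _)
        _ ≤ _ := Finset.single_le_sum (f := fun p : (_ : ℕ) × ℕ =>
              ∑ y, (∏ m : Fin (n + 2 + 1), mark p.1 p.2 y m (f m)) * pw M f)
              (fun p _ => Finset.sum_nonneg fun y _ => mul_nonneg (hmk _ _ _) hpw) hab
  · simp only [h0, if_false, Finset.sum_const_zero]
    exact le_refl _

end Pool.Agent.X73.RK
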