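import Mathlib
import Pool.Agent.X73.RK.Spec
import Pool.Agent.X73.RK.Walks
import Pool.Agent.X73.RK.Girth

set_option autoImplicit false
set_option linter.unusedSectionVars false

/-!
# The rank of graphs without a cycle of length `2 k`
-/

namespace Pool.Agent.X73.RK

open Finset Matrix

variable {V : Type} [Fintype V] [DecidableEq V]

/-- an eigenvector for the eigenvalue one makes the even moments at least one -/
theorem one_le_trace (C : Matrix V V ℝ) (hC : C.IsHermitian) (v : V → ℝ) (hv : v ≠ 0)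
    (h : C *ᵥ v = v) (m : ℕ) : 1 ≤ (C ^ (2 * m)).trace := by
  obtain ⟨e, U, h0, h1, hp, -⟩ := spec C hC
  rw [trace_entry h1 (hp (2 * m))]
  have hC1 := hp 1
  rw [pow_one] at hC1
  have hw : diagonal (fun i => e i ^ 1) *ᵥ (Uᵀ *ᵥ v) = Uᵀ *ᵥ v := by
    conv_rhs => rw [← h, hC1]
    rw [mulVec_mulVec, mulVec_mulVec, ← mul_assoc, ← mul_assoc, h1, one_mul]
  have hne : Uᵀ *ᵥ v ≠ 0 := by
    intro h2
    apply hv
    have h3 : U *ᵥ (Uᵀ *ᵥ v) = v := by rw [mulVec_mulVec, h0, one_mulVec]
    rw [← h3, h2, mulVec_zero]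
  obtain ⟨i, hi⟩ := Function.ne_iff.mp hne
  have h4 := congrFun hw i
  rw [mulVec_diagonal, pow_one] at h4
  have h5 : e i = 1 := by
    have h6 : (e i - 1) * (Uᵀ *ᵥ v) i = 0 := by rw [sub_mul, one_mul, h4, sub_self]
    rcases mul_eq_zero.mp h6 with h7 | h7
    · linarith
    · exact absurd h7 hi
  have h8 : e i ^ (2 * m) ≤ ∑ j, e j ^ (2 * m) :=
    Finset.single_le_sum (f := fun j => e j ^ (2 * m))
      (fun j _ => by rw [pow_mul]; positivity) (mem_univ i)
  rw [h5, one_pow] at h8
  exact h8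

/-- a dense part, nonempty -/
theorem peel_ne [Nonempty V] (G : SimpleGraph V) [DecidableRel G.Adj] (a : ℝ)
    (h : 2 * a * Fintype.card V ≤ ∑ u, (dS G univ u : ℝ)) :
    ∃ S : Finset V, S.Nonempty ∧ ∀ u ∈ S, a ≤ dS G S u := by
  obtain ⟨S, hne, hS⟩ := Finset.exists_max_image ((univ : Finset (Finset V)).filter Finset.Nonempty)
    (fun S => ∑ u ∈ S, (dS G S u : ℝ) - 2 * a * S.card)
    ⟨univ, by rw [mem_filter]; exact ⟨mem_univ _, Finset.univ_nonempty⟩⟩
  rw [mem_filter] at hne
  refine ⟨S, hne.2, ?_⟩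
  intro u hu
  have h0 := hS univ (by rw [mem_filter]; exact ⟨mem_univ _, Finset.univ_nonempty⟩)
  rw [Finset.card_univ] at h0
  have h1 : ∑ w ∈ S.erase u, (dS G (S.erase u) w : ℝ) - 2 * a * (S.erase u).card ≤
      ∑ u ∈ S, (dS G S u : ℝ) - 2 * a * S.card := by
    rcases (S.erase u).eq_empty_or_nonempty with he | he
    · rw [he]
      simp only [Finset.sum_empty, Finset.card_empty, Nat.cast_zero, mul_zero, sub_zero]
      linarith
    · exact hS (S.erase u) (by rw [mem_filter]; exact ⟨mem_univ _, he⟩)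
  rw [sum_erase G S hu, Finset.card_erase_of_mem hu] at h1
  have h2 : 1 ≤ S.card := Finset.card_pos.mpr ⟨u, hu⟩
  rw [Nat.cast_sub h2] at h1
  push_cast at h1
  nlinarith

/-- the scaling factors -/
noncomputable def sc (G : SimpleGraph V) [DecidableRel G.Adj] (S : Finset V) (x : V) : ℝ :=
  if x ∈ S then (√(dS G S x : ℝ))⁻¹ else 0

/-- the normalised adjacency matrix of the part `S` -/
noncomputable def NN (G : SimpleGraph V) [DecidableRel G.Adj] (S : Finset V) : Matrix V V ℝ :=
  diagonal (sc G S) * G.adjMatrix ℝ * diagonal (sc G S)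

theorem NN_apply (G : SimpleGraph V) [DecidableRel G.Adj] (S : Finset V) (x y : V) :
    NN G S x y = sc G S x * aa G x y * sc G S y := by
  rw [NN, mul_diagonal, diagonal_mul, SimpleGraph.adjMatrix_apply, aa]

theorem sc_nonneg (G : SimpleGraph V) [DecidableRel G.Adj] (S : Finset V) (x : V) :
    0 ≤ sc G S x := by
  unfold sc
  split_ifs
  · positivity
  · exact le_refl _

theorem aa_nonneg (G : SimpleGraph V) [DecidableRel G.Adj] (x y : V) : 0 ≤ aa G x y := by
  unfold aa
  split_ifs <;> norm_num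

theorem NN_nonneg (G : SimpleGraph V) [DecidableRel G.Adj] (S : Finset V) (x y : V) :
    0 ≤ NN G S x y := by
  rw [NN_apply]
  exact mul_nonneg (mul_nonneg (sc_nonneg _ _ _) (aa_nonneg _ _ _)) (sc_nonneg _ _ _)

theorem NN_adj (G : SimpleGraph V) [DecidableRel G.Adj] (S : Finset V) (x y : V)
    (h : NN G S x y ≠ 0) : G.Adj x y := by
  by_contra hcon
  apply h
  rw [NN_apply, aa, if_neg hcon]
  ring

theorem NN_symm (G : SimpleGraph V) [DecidableRel G.Adj] (S : Finset V) :
    (NN G S).IsHermitian := by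
  rw [Matrix.IsHermitian, conjTranspose_eq_transpose_of_trivial]
  ext x y
  rw [transpose_apply, NN_apply, NN_apply, aa_comm]
  ring

theorem NN_rank (G : SimpleGraph V) [DecidableRel G.Adj] (S : Finset V) :
    (NN G S).rank ≤ (G.adjMatrix ℝ).rank :=
  (Matrix.rank_mul_le_left _ _).trans (Matrix.rank_mul_le_right _ _)

theorem NN_sq (G : SimpleGraph V) [DecidableRel G.Adj] (S : Finset V) {a : ℝ} (ha : 0 < a)
    (hS : ∀ u ∈ S, a ≤ dS G S u) (y : V) : ((NN G S) ^ 2) y y ≤ 1 / a := by
  have hsq : ∀ x ∈ S, sc G S x ^ 2 = 1 / (dS G S x : ℝ) := by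
    intro x hx
    unfold sc
    rw [if_pos hx, inv_pow, Real.sq_sqrt (Nat.cast_nonneg _), one_div]
  rw [pow_two, Matrix.mul_apply]
  have e1 : ∀ x, NN G S y x * NN G S x y = sc G S y ^ 2 * (aa G y x * sc G S x ^ 2) := by
    intro x
    rw [NN_apply, NN_apply, aa_comm G x y]
    have := aa_sq G y x
    calc sc G S y * aa G y x * sc G S x * (sc G S x * aa G y x * sc G S y)
        = sc G S y ^ 2 * ((aa G y x * aa G y x) * sc G S x ^ 2) := by ring
      _ = _ := by rw [this]
  rw [Finset.sum_congr rfl fun x _ => e1 x, ← Finset.mul_sum]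
  by_cases hy : y ∈ S
  · have hd : 0 < (dS G S y : ℝ) := ha.trans_le (hS y hy)
    have e2 : ∑ x, aa G y x * sc G S x ^ 2 ≤ dS G S y * (1 / a) := by
      have e3 : ∑ x, aa G y x * sc G S x ^ 2 = ∑ x ∈ S, aa G y x * sc G S x ^ 2 := by
        refine (Finset.sum_subset (Finset.subset_univ S) ?_).symm
        intro x _ hx
        unfold sc
        rw [if_neg hx]
        ring
      rw [e3, ← sum_aa, Finset.sum_mul]
      apply Finset.sum_le_sum
      intro x hx
      rw [hsq x hx]
      apply mul_le_mul_of_nonneg_left _ (aa_nonneg _ _ _)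
      exact one_div_le_one_div_of_le ha (hS x hx)
    rw [hsq y hy]
    calc 1 / (dS G S y : ℝ) * ∑ x, aa G y x * sc G S x ^ 2 ≤
        1 / (dS G S y : ℝ) * (dS G S y * (1 / a)) :=
          mul_le_mul_of_nonneg_left e2 (by positivity)
      _ = 1 / a := by field_simp
  · have : sc G S y = 0 := by unfold sc; rw [if_neg hy]
    rw [this]
    have : (0 : ℝ) ≤ 1 / a := by positivity
    simpa using this

theorem NN_vec (G : SimpleGraph V) [DecidableRel G.Adj] (S : Finset V) {a : ℝ} (ha : 0 < a)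
    (hS : ∀ u ∈ S, a ≤ dS G S u) :
    NN G S *ᵥ (fun x => if x ∈ S then √(dS G S x : ℝ) else 0) =
      fun x => if x ∈ S then √(dS G S x : ℝ) else 0 := by
  funext x
  simp only [mulVec, dotProduct]
  have e1 : ∀ y, NN G S x y * (if y ∈ S then √(dS G S y : ℝ) else 0) =
      if y ∈ S then sc G S x * aa G x y else 0 := by
    intro y
    rw [NN_apply]
    by_cases hy : y ∈ S
    · rw [if_pos hy, if_pos hy]
      have hd : 0 < (dS G S y : ℝ) := ha.trans_le (hS y hy)
      have : sc G S y * √(dS G S y : ℝ) = 1 := by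
        unfold sc
        rw [if_pos hy, inv_mul_cancel₀ (Real.sqrt_pos.mpr hd).ne']
      rw [mul_assoc, this, mul_one]
    · rw [if_neg hy, if_neg hy, mul_zero]
  rw [Finset.sum_congr rfl fun y _ => e1 y, Finset.sum_ite_mem, Finset.univ_inter,
    ← Finset.mul_sum, sum_aa]
  by_cases hx : x ∈ S
  · have hd : 0 < (dS G S x : ℝ) := ha.trans_le (hS x hx)
    unfold sc
    rw [if_pos hx, if_pos hx]
    have h1 : √(dS G S x : ℝ) ≠ 0 := (Real.sqrt_pos.mpr hd).ne'
    have h2 : √(dS G S x : ℝ) * √(dS G S x : ℝ) = dS G S x := Real.mul_self_sqrt hd.le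
    field_simp
    rw [pow_two]
    exact h2.symm
  · unfold sc
    rw [if_neg hx, if_neg hx, zero_mul]

/-- the rank of a graph without a cycle of length `2 k` that contains a part of minimum degree at
least `a` -/
theorem rank_part (G : SimpleGraph V) [DecidableRel G.Adj] {k : ℕ} (hk : 2 ≤ k)
    (hG : (SimpleGraph.cycleGraph (2 * k)).Free G) (S : Finset V) (hne : S.Nonempty) {a : ℝ}
    (ha : 0 < a) (hS : ∀ u ∈ S, a ≤ dS G S u) :
    (a / (k * (2 * k - 3))) ^ k ≤ ((G.adjMatrix ℝ).rank : ℝ) := by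
  set N := NN G S with hN
  have hk' : (2 : ℝ) ≤ k := by exact_mod_cast hk
  set K : ℝ := (k : ℝ) * (2 * k - 3) with hK
  have hKcast : ((PP (2 * k)).card : ℝ) = K := by
    rw [card_PP hk, hK]
    push_cast [Nat.cast_sub (show 3 ≤ 2 * k by omega)]
    ring
  have hK0 : 0 < K := by
    rw [hK]
    apply mul_pos <;> linarith
  -- the comparison of the traces
  have h1 : (N ^ (2 * k)).trace ≤ K / a * (N ^ (2 * k - 2)).trace := by
    have h2 := trace_le G N (NN_nonneg G S) (NN_adj G S) hk hG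
    have hev : ∀ m : ℕ, ∀ y, 0 ≤ (N ^ (2 * m)) y y := by
      intro m y
      obtain ⟨e, U, -, -, hp, -⟩ := spec N (NN_symm G S)
      rw [diag_entry (hp (2 * m))]
      apply Finset.sum_nonneg
      intro i _
      rw [pow_mul]
      positivity
    have h3 : ∀ p ∈ PP (2 * k), ∑ y, (N ^ (p.2 - p.1)) y y * (N ^ (2 * k - (p.2 - p.1))) y y ≤
        1 / a * (N ^ (2 * k - 2)).trace := by
      intro p hp
      rw [mem_PP] at hp
      rw [Matrix.trace, Finset.mul_sum]
      apply Finset.sum_le_sum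
      intro y _
      have h4 := diag_mul_le N (NN_symm G S) y (p.2 - p.1) (2 * k - (p.2 - p.1)) (by omega)
        (by omega) (by
          have : p.2 - p.1 + (2 * k - (p.2 - p.1)) = 2 * k := by omega
          rw [this]
          exact even_two_mul k)
      have e1 : p.2 - p.1 + (2 * k - (p.2 - p.1)) - 2 = 2 * k - 2 := by omega
      rw [e1] at h4
      refine h4.trans ?_
      rw [diag_apply]
      apply mul_le_mul_of_nonneg_right (NN_sq G S ha hS y)
      have e2 : 2 * k - 2 = 2 * (k - 1) := by omega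
      rw [e2]
      exact hev (k - 1) y
    calc (N ^ (2 * k)).trace ≤ _ := h2
      _ ≤ ∑ _p ∈ PP (2 * k), 1 / a * (N ^ (2 * k - 2)).trace := Finset.sum_le_sum h3
      _ = K / a * (N ^ (2 * k - 2)).trace := by
          rw [Finset.sum_const, nsmul_eq_mul, hKcast]
          ring
  -- the largest eigenvalue
  have h5 : 1 ≤ (N ^ (2 * k)).trace := by
    apply one_le_trace N (NN_symm G S) _ _ (NN_vec G S ha hS)
    obtain ⟨x, hx⟩ := hne
    intro h
    have h6 := congrFun h x
    simp only [hx, if_true, Pi.zero_apply] at h6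
    have hd : 0 < (dS G S x : ℝ) := ha.trans_le (hS x hx)
    exact (Real.sqrt_pos.mpr hd).ne' h6
  have h7 := rank_of_moments N (NN_symm G S) (K / a) (by positivity) k hk h5 h1
  have h8 : (N.rank : ℝ) ≤ ((G.adjMatrix ℝ).rank : ℝ) := by exact_mod_cast NN_rank G S
  have h9 : 1 ≤ (K / a) ^ k * ((G.adjMatrix ℝ).rank : ℝ) :=
    h7.trans (mul_le_mul_of_nonneg_left h8 (by positivity))
  have h10 : (a / K) ^ k * ((K / a) ^ k) = 1 := by
    rw [← mul_pow, div_mul_div_comm, mul_comm K a, div_self (by positivity), one_pow]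
  calc (a / K) ^ k = (a / K) ^ k * 1 := by ring
    _ ≤ (a / K) ^ k * ((K / a) ^ k * ((G.adjMatrix ℝ).rank : ℝ)) :=
        mul_le_mul_of_nonneg_left h9 (by positivity)
    _ = ((G.adjMatrix ℝ).rank : ℝ) := by rw [← mul_assoc, h10, one_mul]

theorem rank_even (G : SimpleGraph V) [DecidableRel G.Adj] {k : ℕ} (hk : 2 ≤ k)
    (hG : (SimpleGraph.cycleGraph (2 * k)).Free G) :
    ((G.edgeFinset.card : ℝ) / (k * (2 * k - 3) * Fintype.card V)) ^ k ≤
      ((G.adjMatrix ℝ).rank : ℝ) := by
  have hk' : (2 : ℝ) ≤ k := by exact_mod_cast hk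
  have hr0 : (0 : ℝ) ≤ ((G.adjMatrix ℝ).rank : ℝ) := Nat.cast_nonneg _
  rcases Nat.eq_zero_or_pos G.edgeFinset.card with he | he
  · rw [he, Nat.cast_zero, zero_div, zero_pow (by omega)]
    exact hr0
  rcases isEmpty_or_nonempty V with hV | hV
  · have : Fintype.card V = 0 := Fintype.card_eq_zero
    rw [this, Nat.cast_zero, mul_zero, div_zero, zero_pow (by omega)]
    exact hr0
  have hn : 0 < (Fintype.card V : ℝ) := by exact_mod_cast Fintype.card_pos
  have he' : 0 < (G.edgeFinset.card : ℝ) := by exact_mod_cast he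
  have hdeg : ∑ u, (dS G univ u : ℝ) = 2 * G.edgeFinset.card := by
    have h1 := G.sum_degrees_eq_twice_card_edges
    have h2 : ∑ u, (dS G univ u : ℝ) = ((∑ u, G.degree u : ℕ) : ℝ) := by
      push_cast
      exact Finset.sum_congr rfl fun u _ => by rw [dS_univ]
    rw [h2, h1]
    push_cast
    rfl
  set a : ℝ := (G.edgeFinset.card : ℝ) / Fintype.card V with ha
  have ha0 : 0 < a := by positivity
  obtain ⟨S, hne, hS⟩ := peel_ne G a (by
    rw [hdeg, ha]
    apply le_of_eq
    field_simp)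
  have h := rank_part G hk hG S hne ha0 hS
  have e1 : (G.edgeFinset.card : ℝ) / (k * (2 * k - 3) * Fintype.card V) =
      a / (k * (2 * k - 3)) := by
    rw [ha, div_div, mul_comm (k * (2 * k - 3) : ℝ)]
  rw [e1]
  exact h

end Pool.Agent.X73.RK
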